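import Pool.Agent.Results.MP_55f31a_lc.LyndonPositivity

/-!
# Craig interpolation, positivity and Lyndon interpolation: tools
-/

set_option autoImplicit false

namespace Pool.Agent.H80.LP

open Pool.Agent.Results.MP_55f31a_lc.LyndonPositivity
open Pool.Agent.Results.MP_55f31a_lc.LyndonPositivity.Fml

/-- The Craig interpolation property: if `φ → ψ` is in `Λ`, there is a formula `θ` whose variables
occur both in `φ` and in `ψ` such that `φ → θ` and `θ → ψ` are in `Λ`. -/
def CIP (Λ : Set Fml) : Prop :=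
  ∀ φ ψ, imp φ ψ ∈ Λ → ∃ θ : Fml, θ.vars ⊆ φ.vars ∩ ψ.vars ∧ imp φ θ ∈ Λ ∧ imp θ ψ ∈ Λ

/-- The uniform interpolation property: for every formula `φ` and every set `V` of variables there
is a formula `χ` whose variables occur in `φ` and lie in `V`, such that `φ → χ` is in `Λ`, and such
that `χ → ψ` is in `Λ` for every `ψ` which has only variables of `V` in common with `φ` and for
which `φ → ψ` is in `Λ`. -/
def UIP (Λ : Set Fml) : Prop :=
  ∀ (φ : Fml) (V : Set ℕ), ∃ χ : Fml, χ.vars ⊆ φ.vars ∩ V ∧ imp φ χ ∈ Λ ∧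
    ∀ ψ : Fml, φ.vars ∩ ψ.vars ⊆ V → imp φ ψ ∈ Λ → imp χ ψ ∈ Λ

/-- Local tabularity: for every `n` there is a finite set of formulas such that every formula in
the first `n` variables is `Λ`-equivalent to one of them. -/
def LocallyTabular (Λ : Set Fml) : Prop :=
  ∀ n : ℕ, ∃ S : Set Fml, S.Finite ∧ ∀ φ : Fml, (∀ p ∈ φ.vars, p < n) → ∃ ψ ∈ S, Fml.iff φ ψ ∈ Λ

/-! ### Variables and substitutions -/

theorem vars_and (φ ψ : Fml) : (and φ ψ).vars = φ.vars ∪ ψ.vars := by
  ext p; simp only [vars, lits, Set.mem_union, Set.mem_ofPred_eq]; tauto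

theorem vars_or (φ ψ : Fml) : (or φ ψ).vars = φ.vars ∪ ψ.vars := by
  ext p; simp only [vars, lits, Set.mem_union, Set.mem_ofPred_eq]; tauto

theorem vars_box (φ : Fml) : (box φ).vars = φ.vars := rfl

theorem vars_dia (φ : Fml) : (dia φ).vars = φ.vars := rfl

theorem vars_pos (p : ℕ) : (pos p).vars = {p} := by
  ext q; simp [vars, lits]

theorem vars_neg (p : ℕ) : (neg p).vars = {p} := by
  ext q; simp [vars, lits]

theorem vars_top : top.vars = ∅ := by
  ext q; simp [vars, lits]

theorem vars_bot : bot.vars = ∅ := by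
  ext q; simp [vars, lits]

theorem vars_dual : ∀ φ : Fml, φ.dual.vars = φ.vars
  | .pos p => by simp only [dual, vars_pos, vars_neg]
  | .neg p => by simp only [dual, vars_pos, vars_neg]
  | .bot => by simp only [dual, vars_top, vars_bot]
  | .top => by simp only [dual, vars_top, vars_bot]
  | .and φ ψ => by simp only [dual, vars_and, vars_or, vars_dual φ, vars_dual ψ]
  | .or φ ψ => by simp only [dual, vars_and, vars_or, vars_dual φ, vars_dual ψ]
  | .dia φ => by simp only [dual, vars_box, vars_dia, vars_dual φ]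
  | .box φ => by simp only [dual, vars_box, vars_dia, vars_dual φ]

theorem vars_imp (φ ψ : Fml) : (imp φ ψ).vars = φ.vars ∪ ψ.vars := by
  rw [imp, vars_or, vars_dual]

theorem subst_congr {σ τ : ℕ → Fml} : ∀ φ : Fml, (∀ p ∈ φ.vars, σ p = τ p) → φ.subst σ = φ.subst τ
  | .pos p, h => h p (Or.inl rfl)
  | .neg p, h => by
      have := h p (Or.inr rfl)
      simp only [subst, this]
  | .bot, _ => rfl
  | .top, _ => rfl
  | .and φ ψ, h => by
      simp only [subst]
      rw [subst_congr φ (fun p hp => h p (hp.imp Or.inl Or.inl)),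
        subst_congr ψ (fun p hp => h p (hp.imp Or.inr Or.inr))]
  | .or φ ψ, h => by
      simp only [subst]
      rw [subst_congr φ (fun p hp => h p (hp.imp Or.inl Or.inl)),
        subst_congr ψ (fun p hp => h p (hp.imp Or.inr Or.inr))]
  | .dia φ, h => by simp only [subst, subst_congr φ h]
  | .box φ, h => by simp only [subst, subst_congr φ h]

theorem subst_subst (σ τ : ℕ → Fml) : ∀ φ : Fml,
    (φ.subst σ).subst τ = φ.subst fun p => (σ p).subst τ
  | .pos p => rfl
  | .neg p => by simp only [subst, subst_dual]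
  | .bot => rfl
  | .top => rfl
  | .and φ ψ => by simp only [subst, subst_subst σ τ φ, subst_subst σ τ ψ]
  | .or φ ψ => by simp only [subst, subst_subst σ τ φ, subst_subst σ τ ψ]
  | .dia φ => by simp only [subst, subst_subst σ τ φ]
  | .box φ => by simp only [subst, subst_subst σ τ φ]

theorem vars_subst (σ : ℕ → Fml) {q : ℕ} : ∀ φ : Fml, q ∈ (φ.subst σ).vars →
    ∃ p ∈ φ.vars, q ∈ (σ p).vars
  | .pos p, h => ⟨p, Or.inl rfl, h⟩
  | .neg p, h => ⟨p, Or.inr rfl, by simpa only [subst, vars_dual] using h⟩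
  | .bot, h => by simp only [subst, vars_bot, Set.mem_empty_iff_false] at h
  | .top, h => by simp only [subst, vars_top, Set.mem_empty_iff_false] at h
  | .and φ ψ, h => by
      simp only [subst, vars_and] at h
      rcases h with h | h
      · obtain ⟨p, hp, hq⟩ := vars_subst σ φ h
        exact ⟨p, by rw [vars_and]; exact Or.inl hp, hq⟩
      · obtain ⟨p, hp, hq⟩ := vars_subst σ ψ h
        exact ⟨p, by rw [vars_and]; exact Or.inr hp, hq⟩
  | .or φ ψ, h => by
      simp only [subst, vars_or] at h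
      rcases h with h | h
      · obtain ⟨p, hp, hq⟩ := vars_subst σ φ h
        exact ⟨p, by rw [vars_or]; exact Or.inl hp, hq⟩
      · obtain ⟨p, hp, hq⟩ := vars_subst σ ψ h
        exact ⟨p, by rw [vars_or]; exact Or.inr hp, hq⟩
  | .dia φ, h => vars_subst σ φ h
  | .box φ, h => vars_subst σ φ h

theorem lits_subst (σ : ℕ → Fml) {l : ℕ × Bool} : ∀ φ : Fml, φ.Positive → l ∈ (φ.subst σ).lits →
    ∃ p, l ∈ (σ p).lits
  | .pos p, _, h => ⟨p, h⟩
  | .neg p, hp, _ => absurd rfl (hp p)
  | .bot, _, h => by simp [subst, lits] at h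
  | .top, _, h => by simp [subst, lits] at h
  | .and φ ψ, hp, h => by
      rcases h with h | h
      · exact lits_subst σ φ (fun p hp' => hp p (Or.inl hp')) h
      · exact lits_subst σ ψ (fun p hp' => hp p (Or.inr hp')) h
  | .or φ ψ, hp, h => by
      rcases h with h | h
      · exact lits_subst σ φ (fun p hp' => hp p (Or.inl hp')) h
      · exact lits_subst σ ψ (fun p hp' => hp p (Or.inr hp')) h
  | .dia φ, hp, h => lits_subst σ φ hp h
  | .box φ, hp, h => lits_subst σ φ hp h

end Pool.Agent.H80.LP
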