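import Pool.Agent.H80.LP.Basic

/-!
# Uniform interpolation and the positivity property give Lyndon interpolation (monotone logics)
-/

set_option autoImplicit false

namespace Pool.Agent.H80.LP

open Pool.Agent.Results.MP_55f31a_lc.LyndonPositivity
open Pool.Agent.Results.MP_55f31a_lc.LyndonPositivity.Fml

/-- Replace every literal `l` by `f l`. -/
def lsub (f : ℕ × Bool → Fml) : Fml → Fml
  | .pos p => f (p, true)
  | .neg p => f (p, false)
  | .bot => bot
  | .top => top
  | .and φ ψ => and (lsub f φ) (lsub f ψ)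
  | .or φ ψ => or (lsub f φ) (lsub f ψ)
  | .dia φ => dia (lsub f φ)
  | .box φ => box (lsub f φ)

/-- The literal as a formula. -/
def litF : ℕ × Bool → Fml
  | (p, true) => pos p
  | (p, false) => neg p

theorem lsub_litF : ∀ φ : Fml, lsub litF φ = φ
  | .pos p => rfl
  | .neg p => rfl
  | .bot => rfl
  | .top => rfl
  | .and φ ψ => by simp only [lsub, lsub_litF φ, lsub_litF ψ]
  | .or φ ψ => by simp only [lsub, lsub_litF φ, lsub_litF ψ]
  | .dia φ => by simp only [lsub, lsub_litF φ]
  | .box φ => by simp only [lsub, lsub_litF φ]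

/-- A substitution as a replacement of literals. -/
def asL (σ : ℕ → Fml) : ℕ × Bool → Fml
  | (p, true) => σ p
  | (p, false) => (σ p).dual

theorem subst_eq_lsub (σ : ℕ → Fml) : ∀ φ : Fml, φ.subst σ = lsub (asL σ) φ
  | .pos p => rfl
  | .neg p => rfl
  | .bot => rfl
  | .top => rfl
  | .and φ ψ => by simp only [subst, lsub, subst_eq_lsub σ φ, subst_eq_lsub σ ψ]
  | .or φ ψ => by simp only [subst, lsub, subst_eq_lsub σ φ, subst_eq_lsub σ ψ]
  | .dia φ => by simp only [subst, lsub, subst_eq_lsub σ φ]
  | .box φ => by simp only [subst, lsub, subst_eq_lsub σ φ]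

theorem lsub_subst (f : ℕ × Bool → Fml) (σ : ℕ → Fml) : ∀ φ : Fml,
    (lsub f φ).subst σ = lsub (fun l => (f l).subst σ) φ
  | .pos p => rfl
  | .neg p => rfl
  | .bot => rfl
  | .top => rfl
  | .and φ ψ => by simp only [subst, lsub, lsub_subst f σ φ, lsub_subst f σ ψ]
  | .or φ ψ => by simp only [subst, lsub, lsub_subst f σ φ, lsub_subst f σ ψ]
  | .dia φ => by simp only [subst, lsub, lsub_subst f σ φ]
  | .box φ => by simp only [subst, lsub, lsub_subst f σ φ]

theorem vars_lsub (f : ℕ × Bool → Fml) {q : ℕ} : ∀ φ : Fml, q ∈ (lsub f φ).vars →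
    ∃ l ∈ φ.lits, q ∈ (f l).vars
  | .pos p, h => ⟨(p, true), rfl, h⟩
  | .neg p, h => ⟨(p, false), rfl, h⟩
  | .bot, h => by simp only [lsub, vars_bot, Set.mem_empty_iff_false] at h
  | .top, h => by simp only [lsub, vars_top, Set.mem_empty_iff_false] at h
  | .and φ ψ, h => by
      simp only [lsub, vars_and] at h
      rcases h with h | h
      · obtain ⟨l, hl, hq⟩ := vars_lsub f φ h
        exact ⟨l, Or.inl hl, hq⟩
      · obtain ⟨l, hl, hq⟩ := vars_lsub f ψ h
        exact ⟨l, Or.inr hl, hq⟩
  | .or φ ψ, h => by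
      simp only [lsub, vars_or] at h
      rcases h with h | h
      · obtain ⟨l, hl, hq⟩ := vars_lsub f φ h
        exact ⟨l, Or.inl hl, hq⟩
      · obtain ⟨l, hl, hq⟩ := vars_lsub f ψ h
        exact ⟨l, Or.inr hl, hq⟩
  | .dia φ, h => vars_lsub f φ h
  | .box φ, h => vars_lsub f φ h

section

variable {Λ : Set Fml}

theorem lsub_mono (h : MonotoneModalLogic Λ) {f g : ℕ × Bool → Fml} : ∀ φ : Fml,
    (∀ l ∈ φ.lits, imp (f l) (g l) ∈ Λ) → imp (lsub f φ) (lsub g φ) ∈ Λ
  | .pos p, hf => hf (p, true) rfl
  | .neg p, hf => hf (p, false) rfl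
  | .bot, _ => h.refl _
  | .top, _ => h.refl _
  | .and φ ψ, hf => h.and_mono (lsub_mono h φ fun l hl => hf l (Or.inl hl))
      (lsub_mono h ψ fun l hl => hf l (Or.inr hl))
  | .or φ ψ, hf => h.or_mono (lsub_mono h φ fun l hl => hf l (Or.inl hl))
      (lsub_mono h ψ fun l hl => hf l (Or.inr hl))
  | .dia φ, hf => h.dia_mono (lsub_mono h φ hf)
  | .box φ, hf => h.box_mono (lsub_mono h φ hf)

open Classical in
/-- The replacement on the left. -/
noncomputable def bL (L : Set (ℕ × Bool)) (N : ℕ) : ℕ × Bool → Fml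
  | (p, true) => if (p, true) ∈ L then and (pos p) (pos (p + N)) else pos p
  | (p, false) => if (p, false) ∈ L then and (neg p) (pos (p + 2 * N)) else neg p

open Classical in
/-- The replacement on the right. -/
noncomputable def cL (L : Set (ℕ × Bool)) (N : ℕ) : ℕ × Bool → Fml
  | (p, true) => if (p, true) ∈ L then or (pos (p + 3 * N)) (pos (p + N)) else pos (p + 3 * N)
  | (p, false) => if (p, false) ∈ L then or (neg (p + 3 * N)) (pos (p + 2 * N)) else
      neg (p + 3 * N)

open Classical in
/-- The intermediate substitution. -/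
noncomputable def zz (φ ψ : Fml) (N p : ℕ) : Fml :=
  or (if (p, true) ∈ φ.lits then (if (p, true) ∈ ψ.lits then and (pos p) (pos (p + N)) else pos p)
      else bot)
    (if (p, false) ∈ ψ.lits then
      (if (p, false) ∈ φ.lits then and (pos (p + 3 * N)) (neg (p + 2 * N)) else pos (p + 3 * N))
      else bot)

open Classical in
/-- The substitution which identifies the copies. -/
noncomputable def rho (L : Set (ℕ × Bool)) (N v : ℕ) : Fml :=
  if v < N then pos v else
  if v < 2 * N then (if (v - N, true) ∈ L then pos (v - N) else top) else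
  if v < 3 * N then (if (v - 2 * N, false) ∈ L then neg (v - 2 * N) else top) else
  pos (v - 3 * N)

theorem rho0 {L : Set (ℕ × Bool)} {N p : ℕ} (hp : p < N) : rho L N p = pos p := by
  unfold rho; rw [if_pos hp]

theorem rho1 {L : Set (ℕ × Bool)} {N p : ℕ} (hp : p < N) (h : (p, true) ∈ L) :
    rho L N (p + N) = pos p := by
  unfold rho
  rw [if_neg (by omega), if_pos (by omega), Nat.add_sub_cancel, if_pos h]

theorem rho2 {L : Set (ℕ × Bool)} {N p : ℕ} (hp : p < N) (h : (p, false) ∈ L) :
    rho L N (p + 2 * N) = neg p := by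
  unfold rho
  rw [if_neg (by omega), if_neg (by omega), if_pos (by omega), Nat.add_sub_cancel, if_pos h]

theorem rho3 {L : Set (ℕ × Bool)} {N p : ℕ} :
    rho L N (p + 3 * N) = pos p := by
  unfold rho
  by_cases hN : N = 0
  · subst hN
    simp
  · rw [if_neg (by omega), if_neg (by omega), if_neg (by omega), Nat.add_sub_cancel]

/-- Uniform interpolation and positivity give Lyndon interpolation. -/
theorem lip_of_uip (hm : MonotoneModalLogic Λ) (hU : UIP Λ) (hP : LPP Λ) : LIP Λ := by
  classical
  intro φ ψ hφψ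
  obtain ⟨N1, hN1⟩ := exists_bound φ
  obtain ⟨N2, hN2⟩ := exists_bound ψ
  obtain ⟨N, hφN, hψN⟩ : ∃ N, (∀ p ∈ φ.vars, p < N) ∧ (∀ p ∈ ψ.vars, p < N) :=
    ⟨max N1 N2, fun p hp => lt_max_of_lt_left (hN1 p hp), fun p hp => lt_max_of_lt_right (hN2 p hp)⟩
  obtain ⟨L, hL⟩ : ∃ L : Set (ℕ × Bool), L = φ.lits ∩ ψ.lits := ⟨_, rfl⟩
  obtain ⟨B, hB⟩ : ∃ B, B = lsub (bL L N) φ := ⟨_, rfl⟩
  obtain ⟨M, hMv, hBM, hMu⟩ := hU B {v | N ≤ v}
  have hφt : ∀ p, (p, true) ∈ φ.lits → p < N := fun p hp => hφN p (Or.inl hp)
  have hφf : ∀ p, (p, false) ∈ φ.lits → p < N := fun p hp => hφN p (Or.inr hp)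
  have hψt : ∀ p, (p, true) ∈ ψ.lits → p < N := fun p hp => hψN p (Or.inl hp)
  have hψf : ∀ p, (p, false) ∈ ψ.lits → p < N := fun p hp => hψN p (Or.inr hp)
  have hneg : ∀ v, IsVal v → ∀ q, v (neg q) ↔ ¬ v (pos q) := fun v hv q => hv.dual (pos q)
  -- variables
  have hBv : ∀ q ∈ B.vars, q < 3 * N := by
    intro q hq
    rw [hB] at hq
    obtain ⟨⟨p, b⟩, hl, hq⟩ := vars_lsub _ _ hq
    cases b with
    | true =>
      have := hφt p hl
      simp only [bL] at hq
      split_ifs at hq
      · rw [vars_and, vars_pos, vars_pos] at hq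
        simp only [Set.mem_union, Set.mem_singleton_iff] at hq
        omega
      · rw [vars_pos] at hq
        simp only [Set.mem_singleton_iff] at hq
        omega
    | false =>
      have := hφf p hl
      simp only [bL] at hq
      split_ifs at hq
      · rw [vars_and, vars_neg, vars_pos] at hq
        simp only [Set.mem_union, Set.mem_singleton_iff] at hq
        omega
      · rw [vars_neg] at hq
        simp only [Set.mem_singleton_iff] at hq
        omega
  have hMN : ∀ v ∈ M.vars, N ≤ v ∧ v < 3 * N := fun v hv => ⟨(hMv hv).2, hBv v (hMv hv).1⟩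
  -- (2) `B → ψ'`
  have e1 : imp B (φ.subst (zz φ ψ N)) ∈ Λ := by
    rw [hB, subst_eq_lsub]
    refine lsub_mono hm φ fun l hl => ?_
    obtain ⟨p, b⟩ := l
    cases b with
    | true =>
      simp only [bL, asL, zz, hL, Set.mem_inter_iff, hl, true_and, if_true]
      refine hm.taut _ fun v hv => ?_
      have hn := hneg v hv
      split_ifs <;> simp only [hv.imp, hv.and, hv.or, hn] <;> tauto
    | false =>
      simp only [bL, asL, zz, hL, Set.mem_inter_iff, hl, true_and, if_true]
      refine hm.taut _ fun v hv => ?_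
      have hn := hneg v hv
      have hb := hv.bot
      split_ifs <;> simp only [hv.imp, hv.and, hv.or, hn, hv.dual] <;> tauto
  have e2 : imp (φ.subst (zz φ ψ N)) (ψ.subst (zz φ ψ N)) ∈ Λ := by
    have := hm.subst _ (zz φ ψ N) hφψ
    rwa [subst_imp] at this
  have e3 : imp (ψ.subst (zz φ ψ N)) (lsub (cL L N) ψ) ∈ Λ := by
    rw [subst_eq_lsub]
    refine lsub_mono hm ψ fun l hl => ?_
    obtain ⟨p, b⟩ := l
    cases b with
    | true =>
      simp only [cL, asL, zz, hL, Set.mem_inter_iff, hl, and_true, if_true]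
      refine hm.taut _ fun v hv => ?_
      have hn := hneg v hv
      have hb := hv.bot
      split_ifs <;> simp only [hv.imp, hv.and, hv.or, hn, hv.dual] <;> tauto
    | false =>
      simp only [cL, asL, zz, hL, Set.mem_inter_iff, hl, and_true, if_true]
      refine hm.taut _ fun v hv => ?_
      have hn := hneg v hv
      have hb := hv.bot
      split_ifs <;> simp only [hv.imp, hv.and, hv.or, hn, hv.dual] <;> tauto
  have e7 : imp B (lsub (cL L N) ψ) ∈ Λ := hm.trans (hm.trans e1 e2) e3
  have e8 : imp M (lsub (cL L N) ψ) ∈ Λ := by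
    refine hMu _ ?_ e7
    rintro q ⟨-, hq⟩
    obtain ⟨⟨p, b⟩, hl, hq⟩ := vars_lsub _ _ hq
    show N ≤ q
    cases b with
    | true =>
      simp only [cL] at hq
      split_ifs at hq
      · rw [vars_or, vars_pos, vars_pos] at hq
        simp only [Set.mem_union, Set.mem_singleton_iff] at hq
        omega
      · rw [vars_pos] at hq
        simp only [Set.mem_singleton_iff] at hq
        omega
    | false =>
      simp only [cL] at hq
      split_ifs at hq
      · rw [vars_or, vars_neg, vars_pos] at hq
        simp only [Set.mem_union, Set.mem_singleton_iff] at hq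
        omega
      · rw [vars_neg] at hq
        simp only [Set.mem_singleton_iff] at hq
        omega
  -- substitution of `rho`
  have g0 : imp φ (B.subst (rho L N)) ∈ Λ := by
    have f0 : imp (lsub litF φ) (lsub (fun l => (bL L N l).subst (rho L N)) φ) ∈ Λ := by
      refine lsub_mono hm φ fun l hl => ?_
      obtain ⟨p, b⟩ := l
      cases b with
      | true =>
        have hp := hφt p hl
        simp only [litF, bL]
        split_ifs with c
        · simp only [subst, rho0 hp, rho1 hp c]
          exact hm.taut _ fun v hv => by rw [hv.imp, hv.and]; tauto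
        · simp only [subst, rho0 hp]
          exact hm.refl _
      | false =>
        have hp := hφf p hl
        simp only [litF, bL]
        split_ifs with c
        · simp only [subst, rho0 hp, rho2 hp c, dual]
          exact hm.taut _ fun v hv => by rw [hv.imp, hv.and]; tauto
        · simp only [subst, rho0 hp, dual]
          exact hm.refl _
    rw [lsub_litF] at f0
    rw [hB, lsub_subst]
    exact f0
  have g1 : imp φ (M.subst (rho L N)) ∈ Λ := by
    have f1 := hm.subst _ (rho L N) hBM
    rw [subst_imp] at f1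
    exact hm.trans g0 f1
  have g2 : imp (M.subst (rho L N)) ψ ∈ Λ := by
    have f1 := hm.subst _ (rho L N) e8
    rw [subst_imp, lsub_subst] at f1
    refine hm.trans f1 ?_
    have f0 : imp (lsub (fun l => (cL L N l).subst (rho L N)) ψ) (lsub litF ψ) ∈ Λ := by
      refine lsub_mono hm ψ fun l hl => ?_
      obtain ⟨p, b⟩ := l
      cases b with
      | true =>
        have hp := hψt p hl
        simp only [litF, cL]
        split_ifs with c
        · simp only [subst, rho3, rho1 hp c]
          exact hm.taut _ fun v hv => by rw [hv.imp, hv.or]; tauto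
        · simp only [subst, rho3]
          exact hm.refl _
      | false =>
        have hp := hψf p hl
        simp only [litF, cL]
        split_ifs with c
        · simp only [subst, rho3, rho2 hp c, dual]
          exact hm.taut _ fun v hv => by rw [hv.imp, hv.or]; tauto
        · simp only [subst, rho3, dual]
          exact hm.refl _
    rwa [lsub_litF] at f0
  -- (3) `M` is monotone
  have hmono : MonotoneIn Λ M := by
    intro q _ _
    let σ0 : ℕ → Fml := fun v => or (pos v) (pos (v + 3 * N))
    let σ1 : ℕ → Fml := fun v => if v < N then pos v else or (pos v) (pos (v + 3 * N))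
    have s0 : ∀ v, v < N → σ1 v = pos v := fun v hv => if_pos hv
    have s1 : ∀ v, N ≤ v → σ1 v = or (pos v) (pos (v + 3 * N)) := fun v hv =>
      if_neg (by omega)
    have m1 : imp B (B.subst σ1) ∈ Λ := by
      rw [hB, lsub_subst]
      refine lsub_mono hm φ fun l hl => ?_
      obtain ⟨p, b⟩ := l
      cases b with
      | true =>
        have hp := hφt p hl
        simp only [bL]
        split_ifs with c
        · simp only [subst, s0 p hp, s1 (p + N) (by omega)]
          exact hm.taut _ fun v hv => by rw [hv.imp, hv.and, hv.and, hv.or]; tauto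
        · simp only [subst, s0 p hp]
          exact hm.refl _
      | false =>
        have hp := hφf p hl
        simp only [bL]
        split_ifs with c
        · simp only [subst, s0 p hp, s1 (p + 2 * N) (by omega), dual]
          exact hm.taut _ fun v hv => by rw [hv.imp, hv.and, hv.and, hv.or]; tauto
        · simp only [subst, s0 p hp, dual]
          exact hm.refl _
    have m2 : imp (B.subst σ1) (M.subst σ1) ∈ Λ := by
      have := hm.subst _ σ1 hBM
      rwa [subst_imp] at this
    have m3 : M.subst σ1 = M.subst σ0 := subst_congr M fun p hp => s1 p (hMN p hp).1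
    have m4 : imp M (M.subst σ0) ∈ Λ := by
      refine hMu _ ?_ (by rw [← m3]; exact hm.trans m1 m2)
      rintro r ⟨-, hr⟩
      obtain ⟨p, hp, hr⟩ := vars_subst _ _ hr
      have hpN := (hMN p hp).1
      simp only [σ0, vars_or, vars_pos, Set.mem_union, Set.mem_singleton_iff] at hr
      show N ≤ r
      omega
    let κ : ℕ → Fml := fun v => if v < 3 * N then pos v else pos (q (v - 3 * N))
    have m5 := hm.subst _ κ m4
    rw [subst_imp, subst_subst, subst_id M (σ := κ) (fun p hp => if_pos (hMN p hp).2)] at m5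
    have m6 : (M.subst fun p => (σ0 p).subst κ) = M.subst fun p => or (pos p) (pos (q p)) := by
      refine subst_congr M fun p hp => ?_
      show or (κ p) (κ (p + 3 * N)) = _
      have k1 : κ p = pos p := if_pos (hMN p hp).2
      have k2 : κ (p + 3 * N) = pos (q p) := by
        show (if p + 3 * N < 3 * N then pos (p + 3 * N) else pos (q (p + 3 * N - 3 * N))) = _
        rw [if_neg (by omega), Nat.add_sub_cancel]
      rw [k1, k2]
    rw [m6] at m5
    exact m5
  -- (4) the interpolant
  obtain ⟨χ, hχ, hMχ⟩ := hP M hmono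
  let ρ' : ℕ → Fml := fun v => if v ∈ M.vars then rho L N v else top
  have r1 : M.subst ρ' = M.subst (rho L N) := subst_congr M fun p hp => if_pos hp
  have r2 : imp (M.subst ρ') (χ.subst ρ') ∈ Λ := by
    have : imp M χ ∈ Λ := hm.rule1 (fun v hv h1 => by
      rw [hv.iff] at h1; rw [hv.imp]; tauto) hMχ
    have := hm.subst _ ρ' this
    rwa [subst_imp] at this
  have r3 : imp (χ.subst ρ') (M.subst ρ') ∈ Λ := by
    have : imp χ M ∈ Λ := hm.rule1 (fun v hv h1 => by
      rw [hv.iff] at h1; rw [hv.imp]; tauto) hMχ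
    have := hm.subst _ ρ' this
    rwa [subst_imp] at this
  rw [r1] at r2 r3
  refine ⟨χ.subst ρ', ?_, hm.trans g1 r2, hm.trans r3 g2⟩
  intro l hl
  obtain ⟨v, hv⟩ := lits_subst ρ' χ hχ hl
  by_cases hvM : v ∈ M.vars
  · have hv' : l ∈ (rho L N v).lits := by
      have : ρ' v = rho L N v := if_pos hvM
      rwa [this] at hv
    obtain ⟨b1, b2⟩ := hMN v hvM
    rw [← hL]
    unfold rho at hv'
    rw [if_neg (by omega)] at hv'
    split_ifs at hv' with c1 c2 c3
    · have : l = (v - N, true) := hv'
      rw [this]; exact c2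
    · exact absurd hv' (Set.notMem_empty _)
    · have : l = (v - 2 * N, false) := hv'
      rw [this]; exact c3
    · exact absurd hv' (Set.notMem_empty _)
  · have : ρ' v = top := if_neg hvM
    rw [this] at hv
    exact absurd hv (Set.notMem_empty _)

/-- A locally tabular logic with Craig interpolation has uniform interpolation. -/
theorem uip_of_tabular (hm : MonotoneModalLogic Λ) (hT : LocallyTabular Λ) (hC : CIP Λ) :
    UIP Λ := by
  classical
  intro φ V
  obtain ⟨N, hN⟩ := exists_bound φ
  obtain ⟨S, hS, hS2⟩ := hT N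
  have key : ∀ T : Finset Fml, ∃ χ : Fml, χ.vars ⊆ φ.vars ∩ V ∧ imp φ χ ∈ Λ ∧
      ∀ s ∈ T, ∀ θ : Fml, θ.vars ⊆ φ.vars ∩ V → imp φ θ ∈ Λ → Fml.iff θ s ∈ Λ →
        imp χ θ ∈ Λ := by
    intro T
    induction T using Finset.induction_on with
    | empty =>
      refine ⟨top, ?_, hm.taut _ fun v hv => ?_, ?_⟩
      · rw [vars_top]; exact Set.empty_subset _
      · rw [hv.imp]; exact fun _ => hv.top
      · intro s hs; exact absurd hs (Finset.notMem_empty _)
    | insert s T hsT ih =>
      obtain ⟨χ, c1, c2, c3⟩ := ih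
      by_cases hex : ∃ θ : Fml, θ.vars ⊆ φ.vars ∩ V ∧ imp φ θ ∈ Λ ∧ Fml.iff θ s ∈ Λ
      · obtain ⟨θ₀, d1, d2, d3⟩ := hex
        refine ⟨and χ θ₀, ?_, hm.rule2 (fun v hv h1 h2 => ?_) c2 d2, ?_⟩
        · rw [vars_and]; exact Set.union_subset c1 d1
        · rw [hv.imp] at h1 h2 ⊢
          rw [hv.and]; tauto
        · intro s' hs' θ t1 t2 t3
          rcases Finset.mem_insert.mp hs' with hs' | hs'
          · rw [hs'] at t3
            exact hm.rule2 (fun v hv h1 h2 => by
              rw [hv.iff] at h1 h2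
              rw [hv.imp, hv.and]; tauto) t3 d3
          · exact hm.rule1 (fun v hv h1 => by
              rw [hv.imp] at h1
              rw [hv.imp, hv.and]; tauto) (c3 s' hs' θ t1 t2 t3)
      · refine ⟨χ, c1, c2, ?_⟩
        intro s' hs' θ t1 t2 t3
        rcases Finset.mem_insert.mp hs' with hs' | hs'
        · rw [hs'] at t3
          exact absurd ⟨θ, t1, t2, t3⟩ hex
        · exact c3 s' hs' θ t1 t2 t3
  obtain ⟨χ, c1, c2, c3⟩ := key hS.toFinset
  refine ⟨χ, c1, c2, fun ψ hV hφψ => ?_⟩
  obtain ⟨θ, t1, t2, t3⟩ := hC φ ψ hφψ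
  have t4 : θ.vars ⊆ φ.vars ∩ V := fun p hp => ⟨(t1 hp).1, hV (t1 hp)⟩
  obtain ⟨s, hs, hs2⟩ := hS2 θ fun p hp => hN p (t1 hp).1
  exact hm.trans (c3 s (hS.mem_toFinset.mpr hs) θ t4 t2 hs2) t3

end

end Pool.Agent.H80.LP
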